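import Pool.Agent.H92.HB.Stm

/-! Project HB (helper92), job GLUE (helper91). -/

set_option autoImplicit false
set_option linter.all false

namespace Pool.Agent.H91.HB

open WeierstrassCurve NumberField IsDedekindDomain WithZero
open Pool.Agent.TH115.GD hiding sh
open Pool.Agent.Y304.CT (V emb)
open Pool.Agent.Y213.CT (Good)
open Pool.Agent.K4H53.BSD (Bd)
open Pool.Agent.H901R3.MS (CV)
open Pool.Agent.H92P
open Pool.Agent.H92.HB
open scoped Classical NNReal

section loc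

variable {k L : Type} [Field k] [NumberField k] [Field L] [NumberField L] [Algebra k L]
  {v : HeightOneSpectrum (𝓞 k)}

/-- from `p` to `p ^ M` -/
theorem step_up {a b : 𝓞 k} (hd : 2 * (4 * a ^ 3 + 27 * b ^ 2) ∉ v.asIdeal) {p : ℕ} (hp : p.Prime)
    (H : Subgroup (Gv v))
    (h1 : ∀ c : Gv v → PO v a b, (∀ σ τ, c (σ * τ) = c σ + ac a b σ (c τ)) →
      (∀ τ, p • c τ = 0) → ∀ P₂ : PO v a b, (∀ τ ∈ H, c τ = ac a b τ P₂ - P₂) →
      ∃ P, ∀ τ, c τ = ac a b τ P - P) (M : ℕ) :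
    ∀ c : Gv v → PO v a b, (∀ σ τ, c (σ * τ) = c σ + ac a b σ (c τ)) →
      (∀ τ, (p ^ M : ℕ) • c τ = 0) → ∀ P₂ : PO v a b, (∀ τ ∈ H, c τ = ac a b τ P₂ - P₂) →
      ∃ P, ∀ τ, c τ = ac a b τ P - P := by
  induction M with
  | zero =>
    intro c hc hcp P₂ hcH
    refine ⟨0, fun τ => ?_⟩
    have h := hcp τ
    rw [pow_zero, one_smul] at h
    rw [h, map_zero, sub_zero]
  | succ M ih =>
    intro c hc hcp P₂ hcH
    obtain ⟨R, hR⟩ := h1 (fun τ => (p ^ M : ℕ) • c τ)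
      (fun σ τ => by
        show (p ^ M : ℕ) • c (σ * τ) = (p ^ M : ℕ) • c σ + ac a b σ ((p ^ M : ℕ) • c τ)
        rw [hc, smul_add, map_nsmul])
      (fun τ => by
        show p • ((p ^ M : ℕ) • c τ) = 0
        rw [smul_smul, ← pow_succ']
        exact hcp τ)
      ((p ^ M : ℕ) • P₂)
      (fun τ hτ => by
        show (p ^ M : ℕ) • c τ = _
        rw [hcH τ hτ, smul_sub, map_nsmul])
    obtain ⟨R₁, hR₁⟩ := div_om hd (Nat.one_le_pow M p hp.pos) R
    have hcc := coc_sub c hc R₁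
    obtain ⟨P, hP⟩ := ih (fun τ => c τ - (ac a b τ R₁ - R₁)) hcc
      (fun τ => by
        show (p ^ M : ℕ) • (c τ - (ac a b τ R₁ - R₁)) = 0
        rw [smul_sub, smul_sub, ← map_nsmul, hR₁]
        exact sub_eq_zero.2 (hR τ))
      (P₂ - R₁)
      (fun τ hτ => by
        show c τ - (ac a b τ R₁ - R₁) = _
        rw [hcH τ hτ, map_sub]
        abel)
    refine ⟨P + R₁, fun τ => ?_⟩
    have h := hP τ
    have h' : c τ = (ac a b τ P - P) + (ac a b τ R₁ - R₁) := by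
      rw [← h]
      abel
    rw [h', map_add]
    abel

variable {a b : 𝓞 k}

theorem fixf_open (j : L →ₐ[k] AlgebraicClosure k) :
    IsOpen ((fixf j : Subgroup (AlgebraicClosure k ≃ₐ[k] AlgebraicClosure k)) :
      Set (AlgebraicClosure k ≃ₐ[k] AlgebraicClosure k)) := by
  haveI : FiniteDimensional k j.fieldRange :=
    (AlgEquiv.ofInjectiveField j).toLinearEquiv.finiteDimensional
  have h := IntermediateField.fixingSubgroup_isOpen (K := k) (L := AlgebraicClosure k) j.fieldRange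
  convert h using 1
  ext σ
  constructor
  · intro hσ
    show σ ∈ j.fieldRange.fixingSubgroup
    rw [IntermediateField.mem_fixingSubgroup_iff]
    rintro x ⟨y, rfl⟩
    exact hσ y
  · intro hσ x
    have h1 : σ ∈ j.fieldRange.fixingSubgroup := hσ
    rw [IntermediateField.mem_fixingSubgroup_iff] at h1
    exact h1 (j x) ⟨x, rfl⟩

/-- continuity -/
theorem glue_lc {A : Type} [AddCommGroup A]
    [DistribMulAction (AlgebraicClosure k ≃ₐ[k] AlgebraicClosure k) A]
    (j : L →ₐ[k] AlgebraicClosure k)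
    (f : (AlgebraicClosure k ≃ₐ[k] AlgebraicClosure k) → A)
    (hmul : ∀ σ τ, f (σ * τ) = f σ + σ • f τ)
    (hlc : IsLocallyConstant (fun σ : (fixf j : Subgroup _) => f σ)) :
    IsLocallyConstant (fun σ : (⊤ : Subgroup (AlgebraicClosure k ≃ₐ[k] AlgebraicClosure k)) =>
      f σ) := by
  have hf1 : f 1 = 0 := by
    have h := hmul 1 1
    rw [mul_one, one_smul] at h
    exact left_eq_add.1 h
  rw [IsLocallyConstant.iff_exists_open] at hlc ⊢
  obtain ⟨W, hW, h1W, hWf⟩ := hlc 1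
  obtain ⟨W', hW', rfl⟩ := isOpen_induced_iff.1 hW
  intro σ₀
  refine ⟨(fun σ : (⊤ : Subgroup (AlgebraicClosure k ≃ₐ[k] AlgebraicClosure k)) =>
    σ₀.1⁻¹ * σ.1) ⁻¹' (W' ∩ (fixf j : Subgroup _)), ?_, ?_, ?_⟩
  · apply (hW'.inter (fixf_open j)).preimage
    exact continuous_const.mul continuous_subtype_val
  · rw [Set.mem_preimage, inv_mul_cancel]
    exact ⟨h1W, (fixf j).one_mem⟩
  · intro σ hσ
    have h2 : f (σ₀.1⁻¹ * σ.1) = 0 := by
      have h3 := hWf ⟨σ₀.1⁻¹ * σ.1, hσ.2⟩ hσ.1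
      have h4 : f (σ₀.1⁻¹ * σ.1) = f 1 := h3
      rw [h4, hf1]
    have h5 := hmul σ₀.1 (σ₀.1⁻¹ * σ.1)
    rw [mul_inv_cancel_left, h2, smul_zero, add_zero] at h5
    exact h5

/-- the places of good reduction -/
theorem glue_good {p n M : ℕ} (hp : p.Prime) [IsGalois k L] (hn : Module.finrank k L = p ^ n)
    (hd : 2 * (4 * a ^ 3 + 27 * b ^ 2) ∉ v.asIdeal) (hpv : (p : 𝓞 k) ∉ v.asIdeal)
    (hcase : (∀ Q : PR v a b, FrE v a b Q = Q → p • Q = 0 → Q = 0) ∨
      ∀ w : HeightOneSpectrum (𝓞 L), w.under (𝓞 k) = v →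
        ∀ x : k, w.valuation L (algebraMap k L x) = v.valuation k x)
    (j : L →ₐ[k] AlgebraicClosure k)
    (g : (AlgebraicClosure k ≃ₐ[k] AlgebraicClosure k) → Pt (VC a b) (AlgebraicClosure k))
    (hmul : ∀ σ τ, g (σ * τ) = g σ + act (VC a b) (ak σ) (g τ))
    (hg : ∀ σ, (p ^ M : ℕ) • g σ = 0)
    (ι : AlgebraicClosure k →ₐ[k] Om v) (P₂ : Pt (VC a b) (Om v))
    (hH0 : ∀ (τ : Gv v) (σ : AlgebraicClosure k ≃ₐ[k] AlgebraicClosure k),
      σ ∈ fixf j → (∀ x, τ (ι x) = ι (σ x)) →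
      act (VC a b) ι (g σ) = act (VC a b) (rs k τ) P₂ - P₂) :
    ∃ P : Pt (VC a b) (Om v), ∀ (τ : Gv v) (σ : AlgebraicClosure k ≃ₐ[k] AlgebraicClosure k),
      (∀ x, τ (ι x) = ι (σ x)) → act (VC a b) ι (g σ) = act (VC a b) (rs k τ) P - P := by
  let l : L →ₐ[k] Om v := ι.comp j
  obtain ⟨w, κ, hκ, hκl⟩ := emb k L v (l : L →+* Om v) (fun x => l.commutes x)
  letI : Algebra L (AlgebraicClosure k) := j.toRingHom.toAlgebra
  haveI : IsScalarTower k L (AlgebraicClosure k) :=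
    IsScalarTower.of_algebraMap_eq fun x => (j.commutes x).symm
  have hιK : ∀ x : L, ι (algebraMap L (AlgebraicClosure k) x) = l x := fun x => rfl
  -- the restriction to the Galois group of `k`
  have hres : ∀ τ : Gv v, ∃ σ : AlgebraicClosure k ≃ₐ[k] AlgebraicClosure k,
      ∀ x, τ (ι x) = ι (σ x) := fun τ =>
    exists_restrict (F := k) (Ω := AlgebraicClosure k) (L := v.adicCompletion k) (Ω' := Om v) ι τ
  choose res hres using hres
  have hinj : ∀ σ σ' : AlgebraicClosure k ≃ₐ[k] AlgebraicClosure k, (∀ x, ι (σ x) = ι (σ' x)) →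
      σ = σ' := fun σ σ' h => AlgEquiv.ext fun x => ι.injective (h x)
  let resH : Gv v →* (AlgebraicClosure k ≃ₐ[k] AlgebraicClosure k) :=
    { toFun := res
      map_one' := hinj _ _ fun x => by rw [← hres]; rfl
      map_mul' := fun σ τ => hinj _ _ fun x => by
        rw [← hres, AlgEquiv.mul_apply, AlgEquiv.mul_apply, hres, hres] }
  have hresH : ∀ τ : Gv v, ∀ x, τ (ι x) = ι (resH τ x) := hres
  -- the subgroup
  let f : Gv v →* (L ≃ₐ[k] L) := (AlgEquiv.restrictNormalHom L).comp resH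
  have hf0 : ∀ (τ : Gv v) (x : L), algebraMap L (AlgebraicClosure k) (f τ x) =
      resH τ (algebraMap L (AlgebraicClosure k) x) := fun τ x =>
    AlgEquiv.restrictNormal_commutes (resH τ) L x
  have hf1 : ∀ (τ : Gv v) (x : L), τ (l x) = l (f τ x) := by
    intro τ x
    rw [← hιK, ← hιK, hf0, hresH]
  have hidx : ∃ j, f.ker.index = p ^ j := by
    have h1 : f.ker.index ∣ p ^ n := by
      rw [Subgroup.index_ker, ← hn, ← IsGalois.card_aut_eq_finrank k L]
      exact Subgroup.card_subgroup_dvd_card _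
    obtain ⟨j, -, hj⟩ := (Nat.dvd_prime_pow hp).1 h1
    exact ⟨j, hj⟩
  obtain ⟨i, hi⟩ := hidx
  have hcomm : ∀ (τ : Gv v) (R : Pt (VC a b) (AlgebraicClosure k)),
      act (VC a b) ι (act (VC a b) (ak (resH τ)) R) =
        act (VC a b) (rs k τ) (act (VC a b) ι R) := by
    intro τ R
    have e : ι.comp (ak (resH τ)) = (rs k τ).comp ι := AlgHom.ext fun x => (hresH τ x).symm
    rw [act_act, act_act, e]
  let c0 : Gv v → PO v a b := fun τ => tv v a b (act (VC a b) ι (g (resH τ)))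
  have hc0 : ∀ σ τ, c0 (σ * τ) = c0 σ + ac a b σ (c0 τ) := by
    intro σ τ
    show tv v a b (act (VC a b) ι (g (resH (σ * τ)))) = _
    rw [map_mul, hmul, map_add, hcomm, map_add, tv_act]
  have hc0p : ∀ τ, (p ^ M : ℕ) • c0 τ = 0 := by
    intro τ
    show (p ^ M : ℕ) • tv v a b (act (VC a b) ι (g (resH τ))) = _
    rw [← map_nsmul, ← map_nsmul, hg, map_zero, map_zero]
  have hcH : ∀ τ ∈ f.ker, c0 τ = ac a b τ (tv v a b P₂) - tv v a b P₂ := by
    intro τ hτ
    rw [MonoidHom.mem_ker] at hτ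
    have hmem : resH τ ∈ fixf j := by
      intro x
      have h2 := hf0 τ x
      rw [hτ] at h2
      exact h2.symm
    have h1 := hH0 τ (resH τ) hmem (hresH τ)
    show tv v a b (act (VC a b) ι (g (resH τ))) = _
    rw [h1, map_sub, tv_act]
  have hpk : (p : kk v) ≠ 0 := nat_ne hpv
  obtain ⟨P', hP'⟩ : ∃ P', ∀ τ, c0 τ = ac a b τ P' - P' := by
    refine step_up hd hp f.ker ?_ M c0 hc0 hc0p _ hcH
    intro c hcc hcp P₃ hcH'
    rcases hcase with hRt | hU
    · exact core_R hd hp hpk f.ker hi hRt c hcc hcp _ hcH'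
    · have hwv := under_eq hκ
      obtain ⟨S₀, hS₀⟩ := S0_ex (bd_of_good hκ) (fun x => by rw [hwv]; exact hU w hwv x)
      refine core_U hd hp hpk f.ker S₀ (fun τ hτ => ?_) c hcc hcp _ hcH'
      rw [MonoidHom.mem_ker]
      exact hS₀ τ (f τ) (fun x => by rw [hκl, hκl]; exact hf1 τ x) hτ
  obtain ⟨P'', hP''⟩ := (tv v a b).surjective P'
  refine ⟨P'', fun τ σ h => ?_⟩
  have e1 : σ = resH τ := hinj _ _ fun x => by rw [← h, ← hresH]
  rw [e1]
  apply (tv v a b).injective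
  rw [map_sub, tv_act, hP'']
  exact hP' τ

/-- a Galois extension which splits at `v` -/
theorem split_fix [IsGalois k L] (ψ : L →ₐ[k] v.adicCompletion k) (l : L →ₐ[k] Om v) (x : L)
    (τ : Gv v) : τ (l x) = l x := by
  let l' : L →ₐ[k] Om v := (IsScalarTower.toAlgHom k (v.adicCompletion k) (Om v)).comp ψ
  letI : Algebra L (Om v) := l'.toRingHom.toAlgebra
  haveI : IsScalarTower k L (Om v) := IsScalarTower.of_algebraMap_eq fun x => (l'.commutes x).symm
  have h := AlgHom.restrictNormal_commutes l L x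
  have h1 : l x = algebraMap (v.adicCompletion k) (Om v) (ψ (AlgHom.restrictNormal l L x)) := by
    have h2 : algebraMap L (Om v) (AlgHom.restrictNormal l L x) = l x := by
      rw [h]
      rfl
    rw [← h2]
    rfl
  rw [h1]
  exact τ.commutes _

end loc

theorem t_GLUE : S_GLUE := by
  intro k L _ _ _ _ _ _ p n hp hn a b hψ hram M j f hmul hsel
  refine ⟨glue_lc j f hmul hsel.lc, fun σ τ => hmul σ τ, ?_⟩
  intro v ι
  obtain ⟨P₂, hP₂⟩ := hsel.loc v ι
  by_cases hv : 2 * p * (4 * a ^ 3 + 27 * b ^ 2) ∈ v.asIdeal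
  · obtain ⟨ψ⟩ := hψ v hv
    refine ⟨P₂, fun τ σ hσ => ?_⟩
    refine hP₂ τ ⟨σ.1, fun x => ?_⟩ hσ
    apply ι.injective
    show ι (σ.1 (j x)) = ι (j x)
    rw [← hσ (j x)]
    exact split_fix ψ (ι.comp j) x τ
  · have hd : 2 * (4 * a ^ 3 + 27 * b ^ 2) ∉ v.asIdeal := fun h => hv (by
      have e : (2 * p * (4 * a ^ 3 + 27 * b ^ 2) : 𝓞 k) =
          2 * (4 * a ^ 3 + 27 * b ^ 2) * p := by ring
      rw [e]
      exact v.asIdeal.mul_mem_right _ h)
    have hpv : (p : 𝓞 k) ∉ v.asIdeal := fun h => hv (by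
      have e : (2 * p * (4 * a ^ 3 + 27 * b ^ 2) : 𝓞 k) =
          p * (2 * (4 * a ^ 3 + 27 * b ^ 2)) := by ring
      rw [e]
      exact v.asIdeal.mul_mem_right _ h)
    obtain ⟨P, hP⟩ := glue_good (a := a) (b := b) (M := M) hp hn hd hpv (by
      by_cases hr : ¬ p ∣ pts a b v + 1
      · exact Or.inl fun Q hQ hpQ => hR_of' hp hd hr Q hQ hpQ
      · right
        rintro w rfl x
        rcases hram w hv with h | h
        · exact absurd h hr
        · exact h x) j (fun σ => (f σ).1)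
      (fun σ τ => by
        have h := congrArg Subtype.val (hmul σ τ)
        exact h)
      (fun σ => (f σ).2) ι P₂ (fun τ σ hσ h => hP₂ τ ⟨σ, hσ⟩ h)
    exact ⟨P, fun τ σ h => hP τ σ.1 h⟩

end Pool.Agent.H91.HB
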